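import Pool.Agent.Lib_helper22.HtTwo.Count

/-!
# Monotone classes of bipartite graphs with bounded dimension have bounded average degree
-/

set_option autoImplicit false

namespace Pool.Agent.Results.MP_9219e0_co.AverageDegreeBound

open Pool.Agent.Lib_helper22.HtTwo

/-- If the posets of height two associated with the graphs of a monotone class of finite bipartite
graphs have dimension at most `d`, then the graphs of the class have average degree at most
`6 d log₂ (d + 1)`. -/
theorem result (C : ∀ V : Type, SimpleGraph V → Prop) (hC : IsMonotone C) (d : ℕ)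
    (hd : ∀ (V : Type) [Finite V] (G : SimpleGraph V), C V G →
      ∃ A : Set V, IsSide G A ∧ DimLE (PosetLE G A) d) :
    ∀ (V : Type) [Finite V] [Nonempty V] (G : SimpleGraph V), C V G →
      avgDeg G ≤ 6 * d * Real.logb 2 (d + 1) := by
  classical
  intro V _ _ G hG
  have := Fintype.ofFinite V
  have h1 : 2 ^ G.edgeFinset.card ≤ (∏ x, (G.degree x + 1)) ^ d :=
    count G d fun H hH => hd V H (hC V V G H hG (SimpleGraph.IsContained.of_le hH))
  have h2 := bound (fun x => G.degree x) G.edgeFinset.card d h1
    G.sum_degrees_eq_twice_card_edges
  have h3 : G.edgeSet.ncard = G.edgeFinset.card := by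
    rw [← Set.ncard_coe_finset, SimpleGraph.coe_edgeFinset]
  unfold avgDeg
  rw [h3, Nat.card_eq_fintype_card]
  exact h2

end Pool.Agent.Results.MP_9219e0_co.AverageDegreeBound
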